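import Mathlib
import Pool.Agent.H386R2.Artin.Defs
import Pool.Agent.H730R2.AA.Defs

set_option autoImplicit false

/-! # Statements of the modules of the polylogarithmic square-class theorem -/

namespace Pool.Agent.H730R2.AB

open Finset Filter Topology
open Pool.Agent.H386R2.Artin (PP Good hL gL)
open Pool.Agent.H730R2.AA (rho cnt dens mainT)

open Classical in
/-- N1 (file LocalSq.lean, theorem localSq : LocalSq) -/
def LocalSq : Prop := ∀ (p : ℕ), p.Prime → p ≠ 2 → ∀ (E : Finset ℕ) (M : ℝ) (D m : ℤ) (L : ℕ),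
  2 ≤ L → (∀ q ∈ E, q.Prime) → 0 ≤ M → Good E M p → ¬ (p : ℤ) ∣ D → ¬ (p : ℤ) ∣ m →
    |((E.filter (fun q : ℕ => orderOf ((D * (m * (q : ℤ)) ^ 2 : ℤ) : ZMod p) = p - 1)).card : ℝ) -
        (E.card : ℝ) * (rho p * (1 - (jacobiSym D p : ℝ)))| ≤
      1 + 2 ^ L * M + 3 * (E.card : ℝ) * hL L (p - 1) + ((p - 1).primeFactors.card : ℝ) * M

open Classical in
/-- N2 (file FewBad2.lean, theorem fewBad2 : FewBad2) -/
def FewBad2 : Prop := ∃ (C0 : ℝ) (x₀ : ℕ), 2 ≤ C0 ∧ ∀ x : ℕ, x₀ ≤ x →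
  ∀ y : ℕ, (Real.log x) ^ C0 ≤ (y : ℝ) → y ≤ x →
    ∀ E : Finset ℕ, (∀ q ∈ E, q.Prime ∧ q ≤ y) →
      (Nat.primeCounting y : ℝ) / (Real.log x) ^ 2 ≤ (E.card : ℝ) →
        (((PP x).filter (fun p => ¬ Good E ((E.card : ℝ) / (Real.log x) ^ 2) p)).card : ℝ) ≤
          (x : ℝ) ^ (3 / 4 : ℝ)

end Pool.Agent.H730R2.AB
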