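import Mathlib
import Pool.Agent.H730R2.AB.Stubs
import Pool.Agent.H730R2.AA.Grid
import Pool.Agent.H386R2.Artin.Integers
import Pool.Agent.H386R2.Artin.Average

set_option autoImplicit false

/-! # From almost all primes to almost all integers, for all `x` simultaneously -/

namespace Pool.Agent.H730R2.AB

open Finset Filter Topology
open Pool.Agent.H386R2.Artin (PP tlog int_cheb int_harm SmoothFew)
open Pool.Agent.H730R2.AA (rho cnt dens mainT PR bad badAll)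
open Pool.Agent.H730R2.AA.Grid (g g_ge g_one_le g_mono pi_ratio incl)

/-- the exceptional primes `q ≤ y` for the multiplier `m` -/
noncomputable def ExP (D : ℤ) (ε v : ℝ) (x y : ℕ) (m : ℤ) : Finset ℕ := by
  classical
  exact (PP y).filter (fun q : ℕ => ε * (Nat.primeCounting x : ℝ) <
    |(cnt (D * (m * (q : ℤ)) ^ 2) x : ℝ) - v|)

/-- the conclusion of `primes` -/
def PrimesConcl (D : ℤ) (C1 : ℝ) : Prop := ∀ ε : ℝ, 0 < ε → ∃ x₀ : ℕ,
    ∀ x : ℕ, x₀ ≤ x → ∀ y : ℕ, (Real.log x) ^ C1 ≤ (y : ℝ) → y ≤ x →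
      ∀ m : ℤ, m ≠ 0 → Real.log |(m : ℝ)| ≤ √x →
        ((ExP D ε (mainT D x) x y m).card : ℝ) ≤
          2 * ((Nat.primeCounting y : ℝ) / (Real.log x) ^ 2)

theorem cover (D : ℤ) (ε v : ℝ) (x N : ℕ) (S : Finset ℕ) (z : ℝ)
    (hS : ∀ a ∈ Icc 1 N, (∀ p : ℕ, p.Prime → p ∣ a → (p : ℝ) ≤ z) → a ∈ S) :
    (bad D ε v x N \ S).card ≤
      ∑ m ∈ (Icc 1 N).filter (fun m : ℕ => z < ((N / m : ℕ) : ℝ)), (ExP D ε v x (N / m) m).card := by
  classical
  set M := (Icc 1 N).filter (fun m : ℕ => z < ((N / m : ℕ) : ℝ)) with hM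
  have hsub : bad D ε v x N \ S ⊆
      M.biUnion fun m => (ExP D ε v x (N / m) m).image fun q => m * q := by
    intro a ha
    rw [Finset.mem_sdiff] at ha
    obtain ⟨ha, haS⟩ := ha
    unfold bad at ha
    rw [mem_filter] at ha
    obtain ⟨haN, haE⟩ := ha
    have haI := mem_Icc.1 haN
    have hs : ¬ ∀ p : ℕ, p.Prime → p ∣ a → (p : ℝ) ≤ z := fun h => haS (hS a haN h)
    push Not at hs
    obtain ⟨p, hp, ⟨k, hk⟩, hpz⟩ := hs
    have hk0 : 0 < k := by
      rcases Nat.eq_zero_or_pos k with h | h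
      · rw [h, mul_zero] at hk; omega
      · exact h
    have hpk : p ≤ N / k := (Nat.le_div_iff_mul_le hk0).2 (hk ▸ haI.2)
    have hkN : k ≤ N := by
      calc k ≤ p * k := Nat.le_mul_of_pos_left k hp.pos
        _ = a := hk.symm
        _ ≤ N := haI.2
    rw [mem_biUnion]
    refine ⟨k, ?_, ?_⟩
    · rw [hM, mem_filter, mem_Icc]
      exact ⟨⟨hk0, hkN⟩, hpz.trans_le (by exact_mod_cast hpk)⟩
    · rw [mem_image]
      refine ⟨p, ?_, by rw [hk, mul_comm]⟩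
      unfold ExP
      rw [mem_filter]
      refine ⟨?_, ?_⟩
      · rw [PP, mem_filter, mem_range]
        exact ⟨by omega, hp⟩
      · have : ((k : ℤ) * (p : ℤ)) = (a : ℤ) := by rw [hk]; push_cast; ring
        rw [this]
        exact haE
  refine (card_le_card hsub).trans ?_
  exact card_biUnion_le.trans (sum_le_sum fun m _ => card_image_le)

/-- one `x ≥ N` -/
theorem one_big (D : ℤ) (C1 : ℝ) (hC1 : 1 ≤ C1) (hP : PrimesConcl D C1) (ε : ℝ) (hε : 0 < ε)
    (u : ℕ) (hu : 1 ≤ u) : ∃ N₁ : ℕ, ∀ N x : ℕ, N₁ ≤ N → N ≤ x →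
      (Real.log x) ^ C1 ≤ (N : ℝ) ^ (1 / (u : ℝ)) → ∀ S : Finset ℕ,
      (∀ a ∈ Icc 1 N, (∀ p : ℕ, p.Prime → p ∣ a → (p : ℝ) ≤ (N : ℝ) ^ (1 / (u : ℝ))) → a ∈ S) →
      ((bad D ε (mainT D x) x N \ S).card : ℝ) ≤ 12 * u * N / (Real.log x) ^ 2 := by
  classical
  obtain ⟨x₁, hx₁⟩ := hP ε hε
  obtain ⟨Y₀, hY₀⟩ := int_cheb
  have hu' : (0 : ℝ) < u := by exact_mod_cast hu
  have hu1 : (1 : ℝ) ≤ u := by exact_mod_cast hu
  have e1 : ∀ᶠ x : ℕ in atTop, (Y₀ : ℝ) ≤ Real.log x := tlog.eventually_ge_atTop _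
  have e3 : ∀ᶠ x : ℕ in atTop, (3 : ℝ) ≤ Real.log x := tlog.eventually_ge_atTop _
  have e5 : ∀ᶠ x : ℕ in atTop, Real.log x ≤ √x := by
    have h := (isLittleO_log_rpow_atTop (r := 1 / 2) (by norm_num)).bound (c := 1) one_pos
    have h2 := tendsto_natCast_atTop_atTop (R := ℝ) |>.eventually h
    filter_upwards [h2] with x hx
    rw [one_mul, Real.norm_of_nonneg (Real.log_natCast_nonneg x),
      Real.norm_of_nonneg (by positivity), ← Real.sqrt_eq_rpow] at hx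
    exact hx
  obtain ⟨x₀, hx₀⟩ := eventually_atTop.1 (e1.and (e3.and e5))
  refine ⟨max 3 (max x₀ x₁), fun N x hN hNx hxN S hS => ?_⟩
  have hN3 : 3 ≤ N := (le_max_left _ _).trans hN
  obtain ⟨h1, h3, h5⟩ := hx₀ x (((le_max_left _ _).trans (le_max_right _ _)).trans (hN.trans hNx))
  have hx1 := hx₁ x (((le_max_right _ _).trans (le_max_right _ _)).trans (hN.trans hNx))
  have hl0 : (0 : ℝ) < Real.log x := by linarith
  have hlz : Real.log x ≤ (Real.log x) ^ C1 := by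
    have := Real.rpow_le_rpow_of_exponent_le (x := Real.log x) (by linarith) hC1
    rwa [Real.rpow_one] at this
  have hN3' : (3 : ℝ) ≤ N := by exact_mod_cast hN3
  have hN0 : (0 : ℝ) < N := by linarith
  have hlogN : 1 ≤ Real.log N := by
    rw [Real.le_log_iff_exp_le hN0]
    have := Real.exp_one_lt_d9
    linarith
  have hlogN0 : 0 < Real.log N := by linarith
  have hcov := cover D ε (mainT D x) x N S ((N : ℝ) ^ (1 / (u : ℝ))) hS
  have hcov' : ((bad D ε (mainT D x) x N \ S).card : ℝ) ≤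
      ∑ m ∈ (Icc 1 N).filter (fun m : ℕ => (N : ℝ) ^ (1 / (u : ℝ)) < ((N / m : ℕ) : ℝ)),
        ((ExP D ε (mainT D x) x (N / m) m).card : ℝ) := by
    exact_mod_cast hcov
  refine hcov'.trans ?_
  have hterm : ∀ m ∈ (Icc 1 N).filter
        (fun m : ℕ => (N : ℝ) ^ (1 / (u : ℝ)) < ((N / m : ℕ) : ℝ)),
      ((ExP D ε (mainT D x) x (N / m) m).card : ℝ)
      ≤ 6 * u * N / (Real.log N * (Real.log x) ^ 2) * (1 / m) := by
    intro m hm
    rw [mem_filter, mem_Icc] at hm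
    obtain ⟨⟨hm1, hmN⟩, hmz⟩ := hm
    have hm0 : (0 : ℝ) < m := by exact_mod_cast hm1
    have hyz : (Real.log x) ^ C1 ≤ ((N / m : ℕ) : ℝ) := hxN.trans hmz.le
    have hyx : N / m ≤ x := (Nat.div_le_self N m).trans hNx
    have hyR : ((N / m : ℕ) : ℝ) ≤ (N : ℝ) / m := Nat.cast_div_le
    have hmlog : Real.log |((m : ℤ) : ℝ)| ≤ √x := by
      have e : |((m : ℤ) : ℝ)| = (m : ℝ) := by simp
      rw [e]
      refine le_trans (Real.log_le_log hm0 ?_) h5
      exact_mod_cast hmN.trans hNx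
    have hb := hx1 (N / m) hyz hyx (m : ℤ) (by omega) hmlog
    refine hb.trans ?_
    have hyY : Y₀ ≤ N / m := by
      have : (Y₀ : ℝ) ≤ ((N / m : ℕ) : ℝ) := h1.trans (hlz.trans hyz)
      exact_mod_cast this
    have hpi := hY₀ _ hyY
    have hlogy : Real.log N / u ≤ Real.log ((N / m : ℕ) : ℝ) := by
      have := Real.log_le_log (by positivity) hmz.le
      rw [Real.log_rpow hN0] at this
      calc Real.log N / u = 1 / u * Real.log N := by ring
        _ ≤ _ := this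
    have hlogy0 : 0 < Real.log N / u := by positivity
    have hpi2 : (Nat.primeCounting (N / m) : ℝ) ≤ 3 * (N / m : ℝ) / (Real.log N / u) := by
      refine hpi.trans ?_
      gcongr
    calc 2 * ((Nat.primeCounting (N / m) : ℝ) / (Real.log x) ^ 2)
        ≤ 2 * ((3 * (N / m : ℝ) / (Real.log N / u)) / (Real.log x) ^ 2) := by gcongr
      _ = 6 * u * N / (Real.log N * (Real.log x) ^ 2) * (1 / m) := by
        field_simp; norm_num
  refine (sum_le_sum hterm).trans ?_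
  rw [← mul_sum]
  have hh : ∑ m ∈ (Icc 1 N).filter
        (fun m : ℕ => (N : ℝ) ^ (1 / (u : ℝ)) < ((N / m : ℕ) : ℝ)), (1 : ℝ) / m
      ≤ 2 * Real.log N := by
    refine (sum_le_sum_of_subset_of_nonneg (filter_subset _ _) fun m _ _ => by positivity).trans ?_
    refine (int_harm N).trans ?_
    linarith
  calc 6 * u * N / (Real.log N * (Real.log x) ^ 2) *
        ∑ m ∈ (Icc 1 N).filter
          (fun m : ℕ => (N : ℝ) ^ (1 / (u : ℝ)) < ((N / m : ℕ) : ℝ)), (1 : ℝ) / m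
      ≤ 6 * u * N / (Real.log N * (Real.log x) ^ 2) * (2 * Real.log N) := by gcongr
    _ = 12 * u * N / (Real.log x) ^ 2 := by field_simp; norm_num

lemma tail_sq (τ : ℝ) (hτ : 0 < τ) : ∃ J : ℕ, ∀ J0 : ℕ, J ≤ J0 → ∀ L : ℕ,
    ∑ j ∈ Ico J0 L, 1 / (j : ℝ) ^ 2 ≤ τ := by
  have hsum : Summable (fun j : ℕ => 1 / (j : ℝ) ^ 2) := Real.summable_one_div_nat_pow.2 (by norm_num)
  have h := tendsto_sum_nat_add (fun j : ℕ => 1 / (j : ℝ) ^ 2)
  have h1 := (h.eventually (gt_mem_nhds hτ))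
  rw [eventually_atTop] at h1
  obtain ⟨J, hJ⟩ := h1
  refine ⟨J, fun J0 hJ0 L => ?_⟩
  rw [sum_Ico_eq_sum_range]
  refine le_trans ?_ (hJ J0 hJ0).le
  have hs : Summable (fun k : ℕ => 1 / ((k + J0 : ℕ) : ℝ) ^ 2) := (summable_nat_add_iff J0).2 hsum
  refine le_trans (le_of_eq ?_) (hs.sum_le_tsum (range (L - J0)) (fun k _ => by positivity))
  exact sum_congr rfl fun k _ => by rw [add_comm]

/-- the range `x ≥ N` -/
theorem big_range (D : ℤ) (C1 : ℝ) (hC1 : 1 ≤ C1) (hP : PrimesConcl D C1) (hS : SmoothFew)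
    (hml : Tendsto (fun x : ℕ => mainT D x / (Nat.primeCounting x : ℝ)) atTop (nhds (dens D)))
    (ε η : ℝ) (hε : 0 < ε) (hη : 0 < η) : ∃ c : ℝ, 0 < c ∧ ∀ᶠ N : ℕ in atTop,
      ∃ J : ℕ, (J : ℝ) ≤ 3 * N ∧
      ((badAll D ε J (Real.exp ((N : ℝ) ^ c)) N).card : ℝ) ≤ η * N := by
  classical
  have hd := abs_nonneg (dens D)
  set ε₁ : ℝ := min 1 (ε / (|dens D| + 3)) with hε₁def
  have hε₁ : 0 < ε₁ := lt_min one_pos (by positivity)
  have hε₁1 : ε₁ ≤ 1 := min_le_left _ _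
  have hεε : (|dens D| + 3) * ε₁ ≤ ε := by
    have : ε₁ ≤ ε / (|dens D| + 3) := min_le_right _ _
    rw [le_div_iff₀ (by positivity)] at this
    linarith
  obtain ⟨ρ, hρ, hρ2, X2, hX2, hpi⟩ := pi_ratio ε₁ hε₁
  rw [Metric.tendsto_atTop] at hml
  obtain ⟨X3, hX3⟩ := hml (ε₁ / 2) (by positivity)
  have hρρ : 0 < ρ ^ 2 - ρ := by nlinarith
  set X := max X2 X3 with hX
  have hXX2 : X2 ≤ X := le_max_left _ _
  have hXX3 : X3 ≤ X := le_max_right _ _
  have hlρ : 0 < Real.log ρ := Real.log_pos hρ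
  have hlρ1 : Real.log ρ ≤ 1 := by
    have := Real.log_le_sub_one_of_pos (show (0 : ℝ) < ρ by linarith)
    linarith
  have hmain : ∀ x : ℕ, X ≤ x → |mainT D x - dens D * Nat.primeCounting x| ≤
      ε₁ / 2 * Nat.primeCounting x := by
    intro x hx
    have hx2 : 2 ≤ x := by omega
    have hpos : (0 : ℝ) < Nat.primeCounting x := by
      have h1 : Nat.primeCounting 2 ≤ Nat.primeCounting x := Nat.monotone_primeCounting hx2
      have h2 : Nat.primeCounting 2 = 1 := by decide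
      have : 0 < Nat.primeCounting x := by omega
      exact_mod_cast this
    have h1 := hX3 x (hXX3.trans hx)
    rw [Real.dist_eq] at h1
    have h2 : mainT D x - dens D * Nat.primeCounting x =
        (mainT D x / Nat.primeCounting x - dens D) * Nat.primeCounting x := by
      field_simp
    rw [h2, abs_mul, abs_of_pos hpos]
    gcongr
  obtain ⟨u, hu, N₀, hN₀⟩ := hS (η / 2) (half_pos hη)
  have hu' : (0 : ℝ) < u := by exact_mod_cast hu
  obtain ⟨N₁, hN₁⟩ := one_big D C1 hC1 hP (ε₁ / 2) (by positivity) u hu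
  obtain ⟨J2, hJ2⟩ := tail_sq (η * (Real.log ρ) ^ 2 / (24 * u)) (by positivity)
  have hC10 : 0 < C1 := by linarith
  set c : ℝ := 1 / (2 * u * C1) with hc
  have hc0 : 0 < c := by positivity
  refine ⟨c, hc0, ?_⟩
  have t1 : Tendsto (fun N : ℕ => (N : ℝ) ^ c) atTop atTop :=
    (tendsto_rpow_atTop hc0).comp tendsto_natCast_atTop_atTop
  have t2 : Tendsto (fun N : ℕ => (N : ℝ) ^ (1 / (2 * (u : ℝ)))) atTop atTop :=
    (tendsto_rpow_atTop (by positivity)).comp tendsto_natCast_atTop_atTop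
  filter_upwards [eventually_ge_atTop N₀, eventually_ge_atTop N₁, eventually_ge_atTop 1,
    tlog.eventually_ge_atTop (J2 : ℝ), t1.eventually_ge_atTop 2, t2.eventually_ge_atTop (2 ^ C1),
    eventually_ge_atTop X, tendsto_natCast_atTop_atTop.eventually_ge_atTop (1 / (ρ ^ 2 - ρ))]
    with N a0 a1 a2 a3 a4 a5 a6 a7
  have hN1 : (1 : ℝ) ≤ N := by exact_mod_cast a2
  have hN0 : (0 : ℝ) < N := by linarith
  have hlN : 0 ≤ Real.log N := Real.log_nonneg hN1
  set J : ℕ := ⌈Real.log N / Real.log ρ⌉₊ with hJ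
  have hρ0 : 0 < ρ := by linarith
  have hJlow : Real.log N / Real.log ρ ≤ J := Nat.le_ceil _
  have hJup : (J : ℝ) < Real.log N / Real.log ρ + 1 := Nat.ceil_lt_add_one (by positivity)
  have hρJ : (N : ℝ) ≤ ρ ^ J := by
    rw [← Real.log_le_log_iff hN0 (by positivity), Real.log_pow]
    rwa [div_le_iff₀ hlρ] at hJlow
  have hρJ2 : ρ ^ J ≤ ρ * N := by
    rw [← Real.log_le_log_iff (by positivity) (by positivity), Real.log_pow,
      Real.log_mul (by positivity) (by positivity)]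
    have : (J : ℝ) * Real.log ρ ≤ (Real.log N / Real.log ρ + 1) * Real.log ρ := by gcongr
    have h2 : (Real.log N / Real.log ρ + 1) * Real.log ρ = Real.log N + Real.log ρ := by
      field_simp
    linarith
  have hgJ : (N : ℝ) ≤ g ρ J := hρJ.trans (g_ge J)
  have hgJ' : N ≤ g ρ J := by exact_mod_cast hgJ
  refine ⟨g ρ J, ?_, ?_⟩
  · have : (g ρ J : ℝ) < ρ ^ J + 1 := Nat.ceil_lt_add_one (by positivity)
    have h2 : ρ * N ≤ 2 * N := by gcongr
    linarith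
  set Y : ℝ := Real.exp ((N : ℝ) ^ c) with hY
  have hYpos : 0 < Y := Real.exp_pos _
  have hgJ0X : X ≤ g ρ J := a6.trans hgJ'
  have hgJ01 : 1 ≤ (ρ ^ 2 - ρ) * g ρ J := by
    have h1 : 1 / (ρ ^ 2 - ρ) ≤ g ρ J := a7.trans hgJ
    rw [div_le_iff₀ hρρ] at h1
    linarith
  have hlogg : ∀ j : ℕ, (g ρ j : ℝ) ≤ ρ ^ 2 * Y → Real.log (g ρ j) ≤ 2 * (N : ℝ) ^ c := by
    intro j hj
    have h1 : Real.log (g ρ j) ≤ Real.log (ρ ^ 2 * Y) :=
      Real.log_le_log (by linarith [g_one_le hρ j]) hj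
    rw [Real.log_mul (by positivity) hYpos.ne', Real.log_pow, hY, Real.log_exp] at h1
    push_cast at h1
    linarith
  have hlowg : ∀ j : ℕ, (j : ℝ) * Real.log ρ ≤ Real.log (g ρ j) := by
    intro j
    rw [← Real.log_pow]
    exact Real.log_le_log (by positivity) (g_ge j)
  set L : ℕ := ⌊2 * (N : ℝ) ^ c / Real.log ρ⌋₊ + 1 with hL
  have hLj : ∀ j : ℕ, (g ρ j : ℝ) ≤ ρ ^ 2 * Y → j ≤ L := by
    intro j hj
    have h1 := hlogg j hj
    have h2 := hlowg j
    have h3 : (j : ℝ) ≤ 2 * (N : ℝ) ^ c / Real.log ρ := by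
      rw [le_div_iff₀ hlρ]
      linarith
    have h4 : j ≤ ⌊2 * (N : ℝ) ^ c / Real.log ρ⌋₊ := Nat.le_floor h3
    omega
  have hsub := incl D hε₁ hε₁1 hεε hρ (fun x y hx => hpi x y (hXX2.trans hx)) hmain hgJ0X hgJ01
    hLj N
  set I := (Ico J (L + 1)).filter (fun j => (g ρ j : ℝ) ≤ ρ ^ 2 * Y) with hI
  set S : Finset ℕ := (Icc 1 N).filter
    (fun a => ∀ p : ℕ, p.Prime → p ∣ a → (p : ℝ) ≤ (N : ℝ) ^ (1 / (u : ℝ))) with hSd
  have hScard : (S.card : ℝ) ≤ η / 2 * N := by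
    have := hN₀ N a0
    convert this
  have hSmem : ∀ a ∈ Icc 1 N, (∀ p : ℕ, p.Prime → p ∣ a → (p : ℝ) ≤ (N : ℝ) ^ (1 / (u : ℝ))) →
      a ∈ S := fun a ha h => mem_filter.2 ⟨ha, h⟩
  have hJpos : 0 < (J : ℝ) ∨ J2 = 0 := by
    rcases Nat.eq_zero_or_pos J2 with h | h
    · exact Or.inr h
    · left
      have : (1 : ℝ) ≤ J2 := by exact_mod_cast h
      have : 0 < Real.log N / Real.log ρ := by
        apply div_pos _ hlρ; linarith
      linarith
  have hJ2J : J2 ≤ J := by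
    have : (J2 : ℝ) ≤ J := by
      refine a3.trans (le_trans ?_ hJlow)
      rw [le_div_iff₀ hlρ]
      nlinarith
    exact_mod_cast this
  have hterm : ∀ j ∈ I, ((bad D (ε₁ / 2) (mainT D (g ρ j)) (g ρ j) N \ S).card : ℝ) ≤
      12 * u * N / (Real.log ρ) ^ 2 * (1 / (j : ℝ) ^ 2) := by
    intro j hj
    rw [hI, mem_filter, mem_Ico] at hj
    obtain ⟨⟨hj1, hj2⟩, hj3⟩ := hj
    have hgN : N ≤ g ρ j := hgJ'.trans (g_mono hρ hj1)
    have hlg := hlogg j hj3
    have hlg0 : 0 ≤ Real.log (g ρ j) := Real.log_nonneg (g_one_le hρ j)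
    have hpow : (Real.log (g ρ j)) ^ C1 ≤ (N : ℝ) ^ (1 / (u : ℝ)) := by
      calc (Real.log (g ρ j)) ^ C1 ≤ (2 * (N : ℝ) ^ c) ^ C1 := by
            exact Real.rpow_le_rpow hlg0 hlg hC10.le
        _ = 2 ^ C1 * (N : ℝ) ^ (1 / (2 * (u : ℝ))) := by
            rw [Real.mul_rpow (by norm_num) (by positivity), ← Real.rpow_mul hN0.le]
            congr 2
            rw [hc]; field_simp
        _ ≤ (N : ℝ) ^ (1 / (2 * (u : ℝ))) * (N : ℝ) ^ (1 / (2 * (u : ℝ))) := by gcongr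
        _ = (N : ℝ) ^ (1 / (u : ℝ)) := by
            rw [← Real.rpow_add hN0]; congr 1; field_simp; norm_num
    have h1 := hN₁ N (g ρ j) a1 hgN hpow S hSmem
    refine h1.trans ?_
    rcases Nat.eq_zero_or_pos j with hj0 | hj0
    · -- j = 0 : then N ≤ 1 and the left side vanishes trivially since log (g ρ 0) = 0
      subst hj0
      have hg0 : g ρ 0 = 1 := by simp [g]
      rw [hg0]
      simp
    · have hj0' : (0 : ℝ) < j := by exact_mod_cast hj0
      have h2 := hlowg j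
      have h3 : 0 < (j : ℝ) * Real.log ρ := by positivity
      calc 12 * u * N / (Real.log (g ρ j)) ^ 2 ≤ 12 * u * N / ((j : ℝ) * Real.log ρ) ^ 2 := by
            gcongr
        _ = _ := by field_simp
  have hcard : (badAll D ε (g ρ J) Y N).card ≤
      S.card + ∑ j ∈ I, (bad D (ε₁ / 2) (mainT D (g ρ j)) (g ρ j) N \ S).card := by
    have h1 : badAll D ε (g ρ J) Y N ⊆
        S ∪ I.biUnion (fun j => bad D (ε₁ / 2) (mainT D (g ρ j)) (g ρ j) N \ S) := by
      intro a ha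
      have h2 := hsub ha
      rw [mem_biUnion] at h2
      obtain ⟨j, hj, hj2⟩ := h2
      by_cases haS : a ∈ S
      · exact mem_union_left _ haS
      · exact mem_union_right _ (mem_biUnion.2 ⟨j, hj, Finset.mem_sdiff.2 ⟨hj2, haS⟩⟩)
    refine (card_le_card h1).trans ((card_union_le _ _).trans ?_)
    gcongr
    exact card_biUnion_le
  calc ((badAll D ε (g ρ J) Y N).card : ℝ)
      ≤ S.card + ∑ j ∈ I, ((bad D (ε₁ / 2) (mainT D (g ρ j)) (g ρ j) N \ S).card : ℝ) := by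
        exact_mod_cast hcard
    _ ≤ η / 2 * N + ∑ j ∈ I, 12 * u * N / (Real.log ρ) ^ 2 * (1 / (j : ℝ) ^ 2) :=
        add_le_add hScard (sum_le_sum hterm)
    _ ≤ η / 2 * N + ∑ j ∈ Ico J (L + 1), 12 * u * N / (Real.log ρ) ^ 2 * (1 / (j : ℝ) ^ 2) := by
        gcongr
        exact filter_subset _ _
    _ = η / 2 * N + 12 * u * N / (Real.log ρ) ^ 2 * ∑ j ∈ Ico J (L + 1), 1 / (j : ℝ) ^ 2 := by
        rw [← mul_sum]
    _ ≤ η / 2 * N + 12 * u * N / (Real.log ρ) ^ 2 * (η * (Real.log ρ) ^ 2 / (24 * u)) := by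
        gcongr
        exact hJ2 J hJ2J (L + 1)
    _ = η * N := by field_simp; ring

end Pool.Agent.H730R2.AB
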