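import Mathlib
import Pool.Agent.H730R2.AB.Stubs
import Pool.Agent.H730R2.AB.Primes
import Pool.Agent.H730R2.AB.IntGrid
import Pool.Agent.H730R2.AB.FewBad2
import Pool.Agent.H730R2.AA.OneX
import Pool.Agent.H730R2.AA.MainTerm
import Pool.Agent.H386R2.Artin.SmoothFew
import Pool.Agent.H386R2.Artin.SumH
import Pool.Agent.H386R2.Artin.OmegaLarge

set_option autoImplicit false

/-! # The final combination -/

namespace Pool.Agent.H730R2.AB

open Finset Filter Topology
open Pool.Agent.H386R2.Artin (PP tlog smoothFew sumH omegaLarge)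
open Pool.Agent.H730R2.AA (rho cnt dens mainT PR bad badAll)

theorem stephens_big : ∀ᶠ l : ℝ in atTop, Real.log 3 + l ≤ l ^ 2 / (64 * Real.log l) := by
  have h1 := Real.isLittleO_log_id_atTop.bound (c := 1 / 128) (by norm_num)
  filter_upwards [h1, eventually_ge_atTop (4 : ℝ)] with l h1 h2
  have hl0 : 0 < l := by linarith
  have hll : 1 ≤ Real.log l := by
    rw [Real.le_log_iff_exp_le hl0]
    have := Real.exp_one_lt_d9
    linarith
  rw [Real.norm_of_nonneg (by linarith), id, Real.norm_of_nonneg hl0.le] at h1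
  have h3 : Real.log 3 ≤ 3 - 1 := Real.log_le_sub_one_of_pos (by norm_num)
  rw [le_div_iff₀ (by positivity)]
  nlinarith

theorem final (hloc : LocalSq) (D : ℤ) (hD : Squarefree D) (hD4 : D % 4 = 1) (hD1 : D ≠ 1)
    (ε η : ℝ) (hε : 0 < ε) (hη : 0 < η) :
    ∃ c : ℝ, 0 < c ∧ ∃ X : ℕ, ∀ᶠ M : ℕ in atTop,
      ((badAll D ε X (Real.exp ((M : ℝ) ^ c)) M).card : ℝ) ≤ η * M := by
  classical
  have hml := Pool.Agent.H730R2.AA.main_lim D hD hD4 hD1
  obtain ⟨X, hX⟩ := Pool.Agent.H730R2.AA.all_x_of D ε (η / 2) hε (half_pos hη) hml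
    (fun ε' hε' => Pool.Agent.H730R2.AA.one_x D hD.ne_zero ε' hε')
  obtain ⟨C1, hC1, hP⟩ := primes hloc sumH omegaLarge fewBad2 D hD.ne_zero
  have hP' : PrimesConcl D C1 := by
    intro ε' hε'
    obtain ⟨x₀, h⟩ := hP ε' hε'
    refine ⟨x₀, fun x hx y hy hyx m hm hm2 => ?_⟩
    refine le_trans (le_of_eq ?_) (h x hx y hy hyx m hm hm2)
    unfold ExP
    congr!
  obtain ⟨c, hc, hbig⟩ := big_range D C1 (by linarith) hP' smoothFew hml ε (η / 2) hε (half_pos hη)
  refine ⟨c, hc, X, ?_⟩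
  filter_upwards [hX, hbig, tlog.eventually stephens_big, eventually_ge_atTop 1] with M h1 h2 h3 h4
  obtain ⟨J, hJ, h2⟩ := h2
  have hM0 : (0 : ℝ) < M := by exact_mod_cast h4
  have hJS : (J : ℝ) ≤ Real.exp ((Real.log M) ^ 2 / (64 * Real.log (Real.log M))) := by
    refine hJ.trans ?_
    rw [← Real.exp_log (show (0 : ℝ) < 3 * M by positivity), Real.log_mul (by norm_num) hM0.ne']
    exact Real.exp_le_exp.2 h3
  have hsub : badAll D ε X (Real.exp ((M : ℝ) ^ c)) M ⊆
      badAll D ε X (Real.exp ((Real.log M) ^ 2 / (64 * Real.log (Real.log M)))) M ∪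
      badAll D ε J (Real.exp ((M : ℝ) ^ c)) M := by
    intro m hm
    unfold badAll at hm
    rw [mem_filter] at hm
    obtain ⟨hmM, x, hx1, hx2, hx3⟩ := hm
    rw [mem_union]
    by_cases hc : (x : ℝ) ≤ Real.exp ((Real.log M) ^ 2 / (64 * Real.log (Real.log M)))
    · left
      unfold badAll
      rw [mem_filter]
      exact ⟨hmM, x, hx1, hc, hx3⟩
    · right
      unfold badAll
      rw [mem_filter]
      refine ⟨hmM, x, ?_, hx2, hx3⟩
      push Not at hc
      have : (J : ℝ) ≤ x := hJS.trans hc.le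
      exact_mod_cast this
  have h5 := (card_le_card hsub).trans (card_union_le _ _)
  have h6 : ((badAll D ε X (Real.exp ((M : ℝ) ^ c)) M).card : ℝ) ≤
      ((badAll D ε X (Real.exp ((Real.log M) ^ 2 / (64 * Real.log (Real.log M)))) M).card : ℝ) +
      ((badAll D ε J (Real.exp ((M : ℝ) ^ c)) M).card : ℝ) := by exact_mod_cast h5
  linarith

end Pool.Agent.H730R2.AB
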