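import Mathlib
import Pool.Agent.H730R2.AB.Stubs
import Pool.Agent.H386R2.Artin.LocalCount

set_option autoImplicit false

/-! # The local count in a square class -/

namespace Pool.Agent.H730R2.AB

open Finset
open Pool.Agent.H386R2.Artin (Good hL gL power_residue incl_excl LC_pos)
open Pool.Agent.H730R2.AA (rho)

section LSq

variable {p : ℕ} [hp : Fact p.Prime]

lemma coprime_t {k : ℕ} (hodd : Odd k) : Nat.Coprime ((k + 1) / 2) k := by
  obtain ⟨r, hr⟩ := hodd
  have h1 : (k + 1) / 2 = r + 1 := by omega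
  rw [h1]
  rw [Nat.coprime_iff_gcd_eq_one]
  have hg1 := Nat.gcd_dvd_left (r + 1) k
  have hg2 := Nat.gcd_dvd_right (r + 1) k
  have hg3 : Nat.gcd (r + 1) k ∣ 2 * (r + 1) - k :=
    Nat.dvd_sub (Dvd.dvd.mul_left hg1 2) hg2
  have : 2 * (r + 1) - k = 1 := by omega
  rw [this] at hg3
  exact Nat.dvd_one.1 hg3

lemma pow_iff {k : ℕ} (hk : k ∣ p - 1) (hodd : Odd k) (D m : ℤ) (q : ℕ) (hD : (D : ZMod p) ≠ 0)
    (hm : (m : ZMod p) ≠ 0) :
    ((D * (m * (q : ℤ)) ^ 2 : ℤ) : ZMod p) ^ ((p - 1) / k) = 1 ↔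
      (((D ^ ((k + 1) / 2) * m ^ (k + 1)) * (q : ℤ) : ℤ) : ZMod p) ^ ((p - 1) / k) = 1 := by
  have hp1 : 0 < p - 1 := LC_pos
  have hk0 : 0 < k := Nat.pos_of_dvd_of_pos hk hp1
  set e := (p - 1) / k with he
  have hek : e * k = p - 1 := Nat.div_mul_cancel hk
  have he0 : 0 < e := by
    rcases Nat.eq_zero_or_pos e with h | h
    · rw [h] at hek; omega
    · exact h
  set t := (k + 1) / 2 with ht
  have h2t : 2 * t = k + 1 := by
    obtain ⟨r, hr⟩ := hodd
    omega
  push_cast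
  set d : ZMod p := (D : ZMod p)
  set μ : ZMod p := (m : ZMod p)
  by_cases hx : (q : ZMod p) = 0
  · rw [hx]
    simp only [mul_zero, ne_eq, OfNat.ofNat_ne_zero, not_false_eq_true, zero_pow, he0.ne']
  set x : ZMod p := (q : ZMod p)
  set a : ZMod p := d * (μ * x) ^ 2 with ha
  set b : ZMod p := d ^ t * μ ^ (k + 1) * x with hb
  have ha0 : a ≠ 0 := mul_ne_zero hD (pow_ne_zero _ (mul_ne_zero hm hx))
  have h1 : a ^ t = b * x ^ k := by
    rw [ha, hb, mul_pow, ← pow_mul, h2t, mul_pow]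
    ring
  have h2 : (a ^ t) ^ e = b ^ e := by
    rw [h1, mul_pow, ← pow_mul, mul_comm k e, hek, ZMod.pow_card_sub_one_eq_one hx, mul_one]
  constructor
  · intro h
    rw [← h2, ← pow_mul, mul_comm t e, pow_mul, h, one_pow]
  · intro h
    rw [h] at h2
    have h3 : (a ^ e) ^ t = 1 := by rw [← pow_mul, mul_comm e t, pow_mul]; exact h2
    have h4 : (a ^ e) ^ k = 1 := by rw [← pow_mul, hek]; exact ZMod.pow_card_sub_one_eq_one ha0
    have h5 := orderOf_dvd_of_pow_eq_one h3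
    have h6 := orderOf_dvd_of_pow_eq_one h4
    have h7 := Nat.dvd_gcd h5 h6
    rw [(coprime_t hodd).gcd_eq_one] at h7
    exact orderOf_eq_one_iff.1 (Nat.dvd_one.1 h7)

open Classical in
lemma power_residue_sq (E : Finset ℕ) (M : ℝ) (D m : ℤ) (hM : 0 ≤ M) (hG : Good E M p)
    (hD : ¬ (p : ℤ) ∣ D) (hm : ¬ (p : ℤ) ∣ m) (k : ℕ) (hk : k ∣ p - 1) (hodd : Odd k) :
    |((E.filter fun q : ℕ => ((D * (m * (q : ℤ)) ^ 2 : ℤ) : ZMod p) ^ ((p - 1) / k) = 1).card : ℝ) -
      ((E.filter fun q : ℕ => (q : ZMod p) ≠ 0).card : ℝ) / k| ≤ M := by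
  have hD' : (D : ZMod p) ≠ 0 := by rwa [Ne, ZMod.intCast_zmod_eq_zero_iff_dvd]
  have hm' : (m : ZMod p) ≠ 0 := by rwa [Ne, ZMod.intCast_zmod_eq_zero_iff_dvd]
  have hmm : ¬ (p : ℤ) ∣ (D ^ ((k + 1) / 2) * m ^ (k + 1)) := by
    rw [← ZMod.intCast_zmod_eq_zero_iff_dvd]
    push_cast
    exact mul_ne_zero (pow_ne_zero _ hD') (pow_ne_zero _ hm')
  have h := power_residue E M _ hM hG hmm k hk
  have hfil : (E.filter fun q : ℕ =>
      ((D * (m * (q : ℤ)) ^ 2 : ℤ) : ZMod p) ^ ((p - 1) / k) = 1) =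
      (E.filter fun q : ℕ =>
      (((D ^ ((k + 1) / 2) * m ^ (k + 1)) * (q : ℤ) : ℤ) : ZMod p) ^ ((p - 1) / k) = 1) :=
    filter_congr fun q _ => pow_iff hk hodd D m q hD' hm'
  rw [hfil]
  exact h

lemma prod_expand (P : Finset ℕ) : ∏ l ∈ P, (1 - 1 / (l : ℝ)) = ∑ K ∈ P.powerset,
    (-1 : ℝ) ^ #K * (1 / ((∏ l ∈ K, l : ℕ) : ℝ)) := by
  have : ∀ l ∈ P, (1 - 1 / (l : ℝ)) = -(1 / (l : ℝ)) + 1 := by
    intro l _; ring
  rw [Finset.prod_congr rfl this, Finset.prod_add]
  refine Finset.sum_congr rfl fun K _ => ?_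
  rw [Finset.prod_const_one, mul_one, Finset.prod_neg]
  congr 1
  push_cast
  rw [Finset.prod_div_distrib, Finset.prod_const_one]

open Classical in
theorem count_odd (E : Finset ℕ) (M : ℝ) (D m : ℤ) (hM : 0 ≤ M) (hG : Good E M p)
    (hD : ¬ (p : ℤ) ∣ D) (hm : ¬ (p : ℤ) ∣ m) (L : ℕ) (P : Finset ℕ)
    (hP : P = (p - 1).primeFactors.filter (fun l => l ≤ L ∧ l ≠ 2)) :
    |((E.filter fun q : ℕ => ((D * (m * (q : ℤ)) ^ 2 : ℤ) : ZMod p) ≠ 0 ∧
        ∀ l ∈ P, ((D * (m * (q : ℤ)) ^ 2 : ℤ) : ZMod p) ^ ((p - 1) / l) ≠ 1).card : ℝ)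
      - ((E.filter fun q : ℕ => (q : ZMod p) ≠ 0).card : ℝ) * ∏ l ∈ P, (1 - 1 / (l : ℝ))| ≤
      2 ^ L * M := by
  set e0 : ℕ := (E.filter fun q : ℕ => (q : ZMod p) ≠ 0).card with he0
  set a : ℕ → ZMod p := fun q => ((D * (m * (q : ℤ)) ^ 2 : ℤ) : ZMod p) with ha
  have hPs : P ⊆ (p - 1).primeFactors := by
    rw [hP]
    exact Finset.filter_subset _ _
  have hPodd : ∀ l ∈ P, Odd l := by
    intro l hl
    rw [hP, mem_filter] at hl
    exact (Nat.prime_of_mem_primeFactors hl.1).odd_of_ne_two hl.2.2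
  have h1 : ((E.filter fun q : ℕ => a q ≠ 0 ∧ ∀ l ∈ P, (a q) ^ ((p - 1) / l) ≠ 1).card : ℝ)
      = ∑ K ∈ P.powerset, (-1 : ℝ) ^ #K *
        ((E.filter fun q : ℕ => (a q) ^ ((p - 1) / ∏ l ∈ K, l) = 1).card : ℝ) := by
    rw [Finset.card_filter]
    push_cast
    have : ∀ q ∈ E, (if a q ≠ 0 ∧ ∀ l ∈ P, (a q) ^ ((p - 1) / l) ≠ 1 then (1 : ℝ) else 0)
        = ∑ K ∈ P.powerset, (-1 : ℝ) ^ #K *
          (if (a q) ^ ((p - 1) / ∏ l ∈ K, l) = 1 then 1 else 0) := by
      intro q _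
      exact incl_excl _ P hPs
    rw [Finset.sum_congr rfl this, Finset.sum_comm]
    refine Finset.sum_congr rfl fun K _ => ?_
    rw [← Finset.mul_sum]
    congr 1
    rw [Finset.card_filter]
    push_cast
    rfl
  suffices hgoal : |((E.filter fun q : ℕ => a q ≠ 0 ∧ ∀ l ∈ P, (a q) ^ ((p - 1) / l) ≠ 1).card : ℝ)
      - (e0 : ℝ) * ∏ l ∈ P, (1 - 1 / (l : ℝ))| ≤ 2 ^ L * M by
    convert hgoal
  rw [h1, prod_expand, Finset.mul_sum, ← Finset.sum_sub_distrib]
  calc |∑ K ∈ P.powerset, ((-1 : ℝ) ^ #K *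
        ((E.filter fun q : ℕ => (a q) ^ ((p - 1) / ∏ l ∈ K, l) = 1).card : ℝ)
        - (e0 : ℝ) * ((-1 : ℝ) ^ #K * (1 / ((∏ l ∈ K, l : ℕ) : ℝ))))|
      ≤ ∑ K ∈ P.powerset, |(-1 : ℝ) ^ #K *
        ((E.filter fun q : ℕ => (a q) ^ ((p - 1) / ∏ l ∈ K, l) = 1).card : ℝ)
        - (e0 : ℝ) * ((-1 : ℝ) ^ #K * (1 / ((∏ l ∈ K, l : ℕ) : ℝ)))| :=
        Finset.abs_sum_le_sum_abs _ _
    _ ≤ ∑ K ∈ P.powerset, M := by
        refine Finset.sum_le_sum fun K hK => ?_
        have hKP := Finset.mem_powerset.mp hK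
        have hd : ∏ l ∈ K, l ∣ p - 1 :=
          (Finset.prod_dvd_prod_of_subset _ _ _ (hKP.trans hPs)).trans
            (Nat.prod_primeFactors_dvd _)
        have hoddK : Odd (∏ l ∈ K, l) := by
          exact Finset.prod_induction _ Odd (fun _ _ h1 h2 => h1.mul h2) odd_one
            (fun l hl => hPodd l (hKP hl))
        have h2 := power_residue_sq E M D m hM hG hD hm _ hd hoddK
        have h3 : (-1 : ℝ) ^ #K *
          ((E.filter fun q : ℕ => (a q) ^ ((p - 1) / ∏ l ∈ K, l) = 1).card : ℝ)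
          - (e0 : ℝ) * ((-1 : ℝ) ^ #K * (1 / ((∏ l ∈ K, l : ℕ) : ℝ)))
          = (-1 : ℝ) ^ #K * (((E.filter fun q : ℕ =>
            (a q) ^ ((p - 1) / ∏ l ∈ K, l) = 1).card : ℝ)
            - (e0 : ℝ) / ((∏ l ∈ K, l : ℕ) : ℝ)) := by ring
        rw [h3, abs_mul, abs_pow, abs_neg, abs_one, one_pow, one_mul]
        exact h2
    _ = 2 ^ #P * M := by
        rw [Finset.sum_const, Finset.card_powerset, nsmul_eq_mul]
        push_cast
        ring
    _ ≤ 2 ^ L * M := by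
        refine mul_le_mul_of_nonneg_right ?_ hM
        refine pow_le_pow_right₀ (by norm_num) ?_
        have : P ⊆ Finset.Icc 1 L := by
          intro l hl
          rw [hP, Finset.mem_filter] at hl
          exact Finset.mem_Icc.mpr ⟨(Nat.prime_of_mem_primeFactors hl.1).one_le, hl.2.1⟩
        simpa using Finset.card_le_card this

lemma one_sub_sum_le (R : Finset ℕ) (hR : ∀ l ∈ R, 1 ≤ l) :
    1 - ∑ l ∈ R, 1 / (l : ℝ) ≤ ∏ l ∈ R, (1 - 1 / (l : ℝ)) ∧
    0 ≤ ∏ l ∈ R, (1 - 1 / (l : ℝ)) ∧ ∏ l ∈ R, (1 - 1 / (l : ℝ)) ≤ 1 := by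
  induction R using Finset.induction_on with
  | empty => simp
  | insert l R hl ih =>
    obtain ⟨h1, h2, h3⟩ := ih (fun x hx => hR x (mem_insert_of_mem hx))
    have hl1 : (1 : ℝ) ≤ l := by exact_mod_cast hR l (mem_insert_self _ _)
    have hl2 : 1 / (l : ℝ) ≤ 1 := by rw [div_le_one (by linarith)]; exact hl1
    have hl3 : 0 < 1 / (l : ℝ) := by positivity
    rw [sum_insert hl, prod_insert hl]
    refine ⟨?_, ?_, ?_⟩
    · nlinarith
    · exact mul_nonneg (by linarith) h2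
    · nlinarith

lemma rho_eq : rho p = ∏ l ∈ (p - 1).primeFactors, (1 - 1 / (l : ℝ)) := by
  have hp1 : 0 < p - 1 := LC_pos
  have h := Nat.totient_eq_mul_prod_factors (p - 1)
  have h2 : ((Nat.totient (p - 1) : ℚ) : ℝ) =
      (((p - 1 : ℕ) : ℚ) * ∏ l ∈ (p - 1).primeFactors, (1 - (l : ℚ)⁻¹) : ℚ) := by
    rw [h]
  unfold rho
  have h3 : (Nat.totient (p - 1) : ℝ) = ((p - 1 : ℕ) : ℝ) *
      ∏ l ∈ (p - 1).primeFactors, (1 - (l : ℝ)⁻¹) := by
    have h4 : ((Nat.totient (p - 1) : ℚ) : ℝ) = (Nat.totient (p - 1) : ℝ) := by norm_cast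
    rw [← h4, h2]
    push_cast
    rfl
  rw [h3]
  have hp1' : ((p - 1 : ℕ) : ℝ) ≠ 0 := by exact_mod_cast hp1.ne'
  field_simp

lemma gL_rho (L : ℕ) : 0 ≤ gL L (p - 1) - rho p ∧ gL L (p - 1) - rho p ≤ hL L (p - 1) := by
  have hR : ∀ l ∈ (p - 1).primeFactors.filter (fun l => L < l), 1 ≤ l := by
    intro l hl
    exact (Nat.prime_of_mem_primeFactors (mem_filter.1 hl).1).one_le
  obtain ⟨h1, h2, h3⟩ := one_sub_sum_le _ hR
  have hg0 := Pool.Agent.H386R2.Artin.gL_nonneg L (p - 1)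
  have hg1 := Pool.Agent.H386R2.Artin.gL_le_one L (p - 1)
  have hsplit : rho p = gL L (p - 1) *
      ∏ l ∈ (p - 1).primeFactors.filter (fun l => L < l), (1 - 1 / (l : ℝ)) := by
    rw [rho_eq]
    unfold gL
    rw [← Finset.prod_filter_mul_prod_filter_not (p - 1).primeFactors (fun l => l ≤ L)]
    congr 1
    refine Finset.prod_congr ?_ fun _ _ => rfl
    ext l
    simp only [mem_filter, not_le]
  have hh0 : 0 ≤ hL L (p - 1) := by
    unfold hL
    exact Finset.sum_nonneg fun l _ => by positivity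
  set Q := ∏ l ∈ (p - 1).primeFactors.filter (fun l => L < l), (1 - 1 / (l : ℝ))
  have h4 : 1 - hL L (p - 1) ≤ Q := by
    unfold hL
    exact h1
  rw [hsplit]
  constructor
  · nlinarith
  · have h5 : gL L (p - 1) - gL L (p - 1) * Q = gL L (p - 1) * (1 - Q) := by ring
    rw [h5]
    calc gL L (p - 1) * (1 - Q) ≤ 1 * (1 - Q) := by
          refine mul_le_mul_of_nonneg_right hg1 (by linarith)
      _ ≤ hL L (p - 1) := by linarith

lemma gL_two (L : ℕ) (hL2 : 2 ≤ L) (hp2 : p ≠ 2) :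
    ∏ l ∈ (p - 1).primeFactors.filter (fun l => l ≤ L ∧ l ≠ 2), (1 - 1 / (l : ℝ)) =
      2 * gL L (p - 1) := by
  have hp1 : 0 < p - 1 := LC_pos
  have hev : 2 ∣ p - 1 := by
    have := hp.out.eq_two_or_odd
    omega
  have h2mem : 2 ∈ (p - 1).primeFactors.filter (fun l => l ≤ L) := by
    rw [mem_filter, Nat.mem_primeFactors]
    exact ⟨⟨Nat.prime_two, hev, hp1.ne'⟩, hL2⟩
  unfold gL
  rw [← Finset.mul_prod_erase _ _ h2mem]
  have h3 : (p - 1).primeFactors.filter (fun l => l ≤ L ∧ l ≠ 2) =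
      ((p - 1).primeFactors.filter (fun l => l ≤ L)).erase 2 := by
    ext l
    simp only [mem_filter, mem_erase]
    tauto
  rw [h3]
  push_cast
  ring

open Classical in
theorem main_neg (E : Finset ℕ) (M : ℝ) (D m : ℤ) (hE : ∀ q ∈ E, q.Prime) (hM : 0 ≤ M)
    (hG : Good E M p) (hD : ¬ (p : ℤ) ∣ D) (hm : ¬ (p : ℤ) ∣ m) (hp2 : p ≠ 2)
    (hneg : legendreSym p D = -1) (L : ℕ) (hL2 : 2 ≤ L) :
    |((E.filter (fun q : ℕ => orderOf ((D * (m * (q : ℤ)) ^ 2 : ℤ) : ZMod p) = p - 1)).card : ℝ)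
      - E.card * (2 * gL L (p - 1))| ≤
      1 + 2 ^ L * M + E.card * hL L (p - 1) + (p - 1).primeFactors.card * M := by
  have hp1 : 0 < p - 1 := LC_pos
  have hD' : (D : ZMod p) ≠ 0 := by rwa [Ne, ZMod.intCast_zmod_eq_zero_iff_dvd]
  have hm' : (m : ZMod p) ≠ 0 := by rwa [Ne, ZMod.intCast_zmod_eq_zero_iff_dvd]
  obtain ⟨P, hP⟩ : ∃ P, P = (p - 1).primeFactors.filter (fun l => l ≤ L ∧ l ≠ 2) := ⟨_, rfl⟩
  obtain ⟨R, hR⟩ : ∃ R, R = (p - 1).primeFactors.filter (fun l => L < l) := ⟨_, rfl⟩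
  have hA := count_odd E M D m hM hG hD hm L P hP
  have hPprod : ∏ l ∈ P, (1 - 1 / (l : ℝ)) = 2 * gL L (p - 1) := by rw [hP]; exact gL_two L hL2 hp2
  rw [hPprod] at hA
  set a : ℕ → ZMod p := fun q => ((D * (m * (q : ℤ)) ^ 2 : ℤ) : ZMod p) with ha
  set B := E.filter (fun q : ℕ => orderOf (a q) = p - 1) with hB
  set A := E.filter (fun q : ℕ => a q ≠ 0 ∧ ∀ l ∈ P, (a q) ^ ((p - 1) / l) ≠ 1) with hAdef
  set E0 := E.filter (fun q : ℕ => (q : ZMod p) ≠ 0) with hE0
  have hBA : B ⊆ A := by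
    intro q hq
    rw [hB, Finset.mem_filter] at hq
    rw [hAdef, Finset.mem_filter]
    have h0 : a q ≠ 0 := by
      intro h0
      have h1 := hq.2
      have h2 : (a q) ^ (p - 1) = 1 := by rw [← h1]; exact pow_orderOf_eq_one _
      rw [h0, zero_pow hp1.ne'] at h2
      exact zero_ne_one h2
    refine ⟨hq.1, h0, fun l hl h1 => ?_⟩
    rw [hP, Finset.mem_filter] at hl
    have hlp := Nat.prime_of_mem_primeFactors hl.1
    have hld := Nat.dvd_of_mem_primeFactors hl.1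
    have h3 := orderOf_dvd_of_pow_eq_one h1
    rw [hq.2] at h3
    have h4 := Nat.le_of_dvd (Nat.div_pos (Nat.le_of_dvd hp1 hld) hlp.pos) h3
    have h5 : (p - 1) / l < p - 1 := Nat.div_lt_self hp1 hlp.one_lt
    omega
  have hAB : A ⊆ B ∪ R.biUnion fun l => E.filter fun q : ℕ => (a q) ^ ((p - 1) / l) = 1 := by
    intro q hq
    rw [hAdef, Finset.mem_filter] at hq
    rw [Finset.mem_union, Finset.mem_biUnion]
    by_cases h : ∀ l ∈ R, (a q) ^ ((p - 1) / l) ≠ 1
    · left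
      rw [hB, Finset.mem_filter]
      refine ⟨hq.1, ?_⟩
      apply orderOf_eq_of_pow_and_pow_div_prime hp1 (ZMod.pow_card_sub_one_eq_one hq.2.1)
      intro l hlp hld
      have hmem : l ∈ (p - 1).primeFactors := Nat.mem_primeFactors.mpr ⟨hlp, hld, hp1.ne'⟩
      rcases le_or_gt l L with hl | hl
      · by_cases hl2 : l = 2
        · subst hl2
          intro hcon
          have hqx : (q : ZMod p) ≠ 0 := by
            intro h0
            apply hq.2.1
            simp only [ha]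
            push_cast
            rw [h0]; simp
          have hpd : (p - 1) / 2 = p / 2 := by
            have := hp.out.eq_two_or_odd
            omega
          have h1 : (D : ZMod p) ^ (p / 2) = -1 := by
            have := legendreSym.eq_pow p D
            rw [hneg] at this
            rw [← this]
            push_cast; rfl
          have h2 : a q ^ ((p - 1) / 2) = -1 := by
            simp only [ha]
            push_cast
            have hc : 2 * ((p - 1) / 2) = p - 1 := by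
              have := hp.out.eq_two_or_odd
              omega
            rw [mul_pow ((D : ZMod p)), ← pow_mul, hc,
              ZMod.pow_card_sub_one_eq_one (mul_ne_zero hm' hqx), mul_one, hpd]
            exact h1
          rw [h2] at hcon
          have h3 : (2 : ZMod p) = 0 := by
            have : (-1 : ZMod p) + 1 = 1 + 1 := by rw [hcon]
            rw [neg_add_cancel] at this
            rw [← one_add_one_eq_two]
            exact this.symm
          have h4 : ((2 : ℕ) : ZMod p) = 0 := by exact_mod_cast h3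
          rw [ZMod.natCast_eq_zero_iff] at h4
          have := (Nat.prime_dvd_prime_iff_eq hp.out Nat.prime_two).1 h4
          exact hp2 this
        · exact hq.2.2 l (by rw [hP, Finset.mem_filter]; exact ⟨hmem, hl, hl2⟩)
      · exact h l (by rw [hR, Finset.mem_filter]; exact ⟨hmem, hl⟩)
    · right
      push Not at h
      obtain ⟨l, hl, hl1⟩ := h
      exact ⟨l, hl, Finset.mem_filter.mpr ⟨hq.1, hl1⟩⟩
  have h1 : (B.card : ℝ) ≤ A.card := by exact_mod_cast Finset.card_le_card hBA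
  have h2 : (A.card : ℝ) ≤ B.card + ∑ l ∈ R, ((E0.card : ℝ) / l + M) := by
    have h3 : A.card ≤ B.card + ∑ l ∈ R, (E.filter fun q : ℕ => (a q) ^ ((p - 1) / l) = 1).card :=
      (Finset.card_le_card hAB).trans ((Finset.card_union_le _ _).trans
        (Nat.add_le_add_left Finset.card_biUnion_le _))
    calc (A.card : ℝ) ≤ B.card +
          ∑ l ∈ R, ((E.filter fun q : ℕ => (a q) ^ ((p - 1) / l) = 1).card : ℝ) := by
          exact_mod_cast h3
      _ ≤ _ := by
          refine add_le_add_right (Finset.sum_le_sum fun l hl => ?_) _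
          rw [hR, Finset.mem_filter] at hl
          have hlp := Nat.prime_of_mem_primeFactors hl.1
          have h4 := power_residue_sq E M D m hM hG hD hm l (Nat.dvd_of_mem_primeFactors hl.1)
            (hlp.odd_of_ne_two (by omega))
          rw [abs_le] at h4
          have h5 := h4.2
          rw [sub_le_iff_le_add] at h5
          rw [add_comm]
          exact h5
  have hE0le : (E0.card : ℝ) ≤ E.card := by
    exact_mod_cast Finset.card_le_card (Finset.filter_subset _ _)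
  have hE0ge : (E.card : ℝ) ≤ E0.card + 1 := by
    have h3 : E ⊆ insert p E0 := by
      intro q hq
      rw [Finset.mem_insert, hE0, Finset.mem_filter]
      by_cases h0 : (q : ZMod p) = 0
      · left
        rw [ZMod.natCast_eq_zero_iff] at h0
        exact ((Nat.prime_dvd_prime_iff_eq hp.out (hE q hq)).mp h0).symm
      · right
        exact ⟨hq, h0⟩
    have h4 := (Finset.card_le_card h3).trans (Finset.card_insert_le _ _)
    exact_mod_cast h4
  have hsum : ∑ l ∈ R, ((E0.card : ℝ) / l + M) ≤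
      E.card * hL L (p - 1) + (p - 1).primeFactors.card * M := by
    rw [Finset.sum_add_distrib, Finset.sum_const, nsmul_eq_mul]
    refine add_le_add ?_ ?_
    · unfold hL
      rw [← hR, Finset.mul_sum]
      refine Finset.sum_le_sum fun l _ => ?_
      rw [mul_one_div]
      exact div_le_div_of_nonneg_right hE0le (by positivity)
    · refine mul_le_mul_of_nonneg_right ?_ hM
      have : R ⊆ (p - 1).primeFactors := by rw [hR]; exact Finset.filter_subset _ _
      exact_mod_cast Finset.card_le_card this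
  have hg0 := Pool.Agent.H386R2.Artin.gL_nonneg L (p - 1)
  have hg1 : 2 * gL L (p - 1) ≤ 1 := by
    rw [← hPprod]
    have hP1 : ∀ l ∈ P, 1 ≤ l := by
      intro l hl
      rw [hP, mem_filter] at hl
      exact (Nat.prime_of_mem_primeFactors hl.1).one_le
    exact (one_sub_sum_le P hP1).2.2
  replace hA : |(A.card : ℝ) - (E0.card : ℝ) * (2 * gL L (p - 1))| ≤ 2 ^ L * M := by
    convert hA
  rw [abs_le] at hA ⊢
  have h2L : (0 : ℝ) ≤ 2 ^ L * M := by positivity
  have hh : 0 ≤ (E.card : ℝ) * hL L (p - 1) := by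
    refine mul_nonneg (by positivity) ?_
    unfold hL
    exact Finset.sum_nonneg fun l _ => by positivity
  have hw : 0 ≤ ((p - 1).primeFactors.card : ℝ) * M := by positivity
  have e1 : (E0.card : ℝ) * (2 * gL L (p - 1)) ≤ E.card * (2 * gL L (p - 1)) :=
    mul_le_mul_of_nonneg_right hE0le (by linarith)
  have e2 : (E.card : ℝ) * (2 * gL L (p - 1)) ≤ E0.card * (2 * gL L (p - 1)) + 1 := by
    calc (E.card : ℝ) * (2 * gL L (p - 1)) ≤ (E0.card + 1) * (2 * gL L (p - 1)) :=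
          mul_le_mul_of_nonneg_right hE0ge (by linarith)
      _ ≤ _ := by linarith
  constructor
  · linarith [hA.1]
  · linarith [hA.2]

open Classical in
theorem main_pos (E : Finset ℕ) (D m : ℤ) (hp2 : p ≠ 2) (hpos : legendreSym p D = 1) :
    (E.filter (fun q : ℕ => orderOf ((D * (m * (q : ℤ)) ^ 2 : ℤ) : ZMod p) = p - 1)).card = 0 := by
  have hp1 : 0 < p - 1 := LC_pos
  rw [card_eq_zero, filter_eq_empty_iff]
  intro q _ hcon
  have hc : 2 * ((p - 1) / 2) = p - 1 := by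
    have := hp.out.eq_two_or_odd
    omega
  have hpd : (p - 1) / 2 = p / 2 := by
    have := hp.out.eq_two_or_odd
    omega
  have h1 : (D : ZMod p) ^ (p / 2) = 1 := by
    have := legendreSym.eq_pow p D
    rw [hpos] at this
    rw [← this]
    push_cast; rfl
  have h0 : ((D * (m * (q : ℤ)) ^ 2 : ℤ) : ZMod p) ≠ 0 := by
    intro h0
    have h2 : ((D * (m * (q : ℤ)) ^ 2 : ℤ) : ZMod p) ^ (p - 1) = 1 := by
      rw [← hcon]; exact pow_orderOf_eq_one _
    rw [h0, zero_pow hp1.ne'] at h2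
    exact zero_ne_one h2
  have hmq : (m : ZMod p) * (q : ZMod p) ≠ 0 := by
    intro h
    apply h0
    push_cast
    rw [h]; simp
  have h2 : ((D * (m * (q : ℤ)) ^ 2 : ℤ) : ZMod p) ^ ((p - 1) / 2) = 1 := by
    push_cast
    rw [mul_pow ((D : ZMod p)), ← pow_mul, hc, ZMod.pow_card_sub_one_eq_one hmq, mul_one, hpd]
    exact h1
  have h3 := orderOf_dvd_of_pow_eq_one h2
  rw [hcon] at h3
  have h4 : 0 < (p - 1) / 2 := by omega
  have h5 := Nat.le_of_dvd h4 h3
  omega

end LSq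

theorem localSq : LocalSq := by
  classical
  intro p hp hp2 E M D m L hL2 hE hM hG hD hm
  have : Fact p.Prime := ⟨hp⟩
  have hj : jacobiSym D p = legendreSym p D := (jacobiSym.legendreSym.to_jacobiSym p D).symm
  have hD' : (D : ZMod p) ≠ 0 := by rwa [Ne, ZMod.intCast_zmod_eq_zero_iff_dvd]
  have hh : 0 ≤ hL L (p - 1) := by
    unfold hL
    exact Finset.sum_nonneg fun l _ => by positivity
  have hE0 : (0 : ℝ) ≤ E.card := Nat.cast_nonneg _
  rw [hj]
  rcases legendreSym.eq_one_or_neg_one p hD' with h | h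
  · rw [h, main_pos E D m hp2 h]
    push_cast
    have h2 : |(0 : ℝ) - E.card * (rho p * (1 - 1))| = 0 := by simp
    rw [h2]
    positivity
  · rw [h]
    have h1 := main_neg E M D m hE hM hG hD hm hp2 h L hL2
    obtain ⟨h2, h3⟩ := gL_rho (p := p) L
    have h4 : (1 : ℝ) - ((-1 : ℤ) : ℝ) = 2 := by push_cast; norm_num
    rw [h4]
    have h5 : (E.card : ℝ) * (gL L (p - 1) - rho p) ≤ E.card * hL L (p - 1) :=
      mul_le_mul_of_nonneg_left h3 hE0
    have h6 : 0 ≤ (E.card : ℝ) * (gL L (p - 1) - rho p) := mul_nonneg hE0 h2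
    rw [abs_le] at h1 ⊢
    constructor
    · nlinarith [h1.1]
    · nlinarith [h1.2]

end Pool.Agent.H730R2.AB
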